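import Pool.Agent.H79.QN.Stmts

/-! Row AC1 of the board `qn` (helper17). -/

set_option autoImplicit false

namespace Pool.Agent.H79.QN

open Finset

theorem ac1 : S_AC1 := by
  intro z₀ r K l z z' hA hM hM'
  obtain ⟨x0, y0⟩ := z₀
  obtain ⟨x, y⟩ := z
  obtain ⟨x', y'⟩ := z'
  have hr1 := hA.r1
  have hr2 := hA.rsq
  have hK1 := hA.K1
  have hl1 := hA.l1
  have hlr := hA.lr
  have hKr : 1000 * K ≤ r := by
    have h1 := hA.Kr
    have h2 : r ^ (2 / 3 : ℝ) ≤ r ^ (1 : ℝ) :=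
      Real.rpow_le_rpow_of_exponent_le hr1 (by norm_num)
    rw [Real.rpow_one] at h2
    linarith
  have m1 := hM.a
  have m2 := hM.b
  have m1' := hM'.a
  have m2' := hM'.b
  -- integrality of `nsq (z - z')`
  have hn : nsq ((x, y) - (x', y')) = 0 ∨ 1 ≤ nsq ((x, y) - (x', y')) := by
    have : 0 ≤ nsq ((x, y) - (x', y')) := by
      simp only [nsq]
      positivity
    omega
  have hn' : ((nsq ((x, y) - (x', y')) : ℤ) : ℝ) = ((x : ℝ) - x') ^ 2 + ((y : ℝ) - y') ^ 2 := by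
    simp only [nsq, Prod.mk_sub_mk]
    push_cast
    ring
  simp only [nsq, crs, Prod.mk_sub_mk] at hr2 m1 m2 m1' m2' ⊢
  push_cast at hr2 m1 m2 m1' m2' ⊢
  set X0 : ℝ := (x0 : ℝ)
  set Y0 : ℝ := (y0 : ℝ)
  set X : ℝ := (x : ℝ)
  set Y : ℝ := (y : ℝ)
  set X' : ℝ := (x' : ℝ)
  set Y' : ℝ := (y' : ℝ)
  set n : ℝ := (X - X') ^ 2 + (Y - Y') ^ 2 with hnd
  rcases hn with hn | hn
  · have h0 : n = 0 := by
      rw [← hn', hn]
      norm_num
    rw [h0, mul_zero]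
    positivity
  · have h1 : 1 ≤ n := by
      rw [← hn']
      exact_mod_cast hn
    set D : ℝ := X0 * (X - X') + Y0 * (Y - Y') with hD
    set F : ℝ := (X ^ 2 + Y ^ 2) - (X' ^ 2 + Y' ^ 2) with hF
    have hF2 : F ^ 2 ≤ 4 * K ^ 2 := by
      have a1 := abs_le.1 m2
      have a2 := abs_le.1 m2'
      have a3 : |F| ≤ 2 * K := by
        rw [abs_le]
        constructor <;> linarith [a1.1, a1.2, a2.1, a2.2]
      have a4 := abs_le.1 a3
      nlinarith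
    set E : ℝ := F - 2 * D with hE
    have hE2 : E ^ 2 ≤ 4 * l ^ 2 * n := by
      have e1 : E = (X - X0 + (X' - X0)) * (X - X') + (Y - Y0 + (Y' - Y0)) * (Y - Y') := by
        rw [hE, hF, hD]
        ring
      have e2 : E ^ 2 + ((X - X0 + (X' - X0)) * (Y - Y') - (Y - Y0 + (Y' - Y0)) * (X - X')) ^ 2 =
          ((X - X0 + (X' - X0)) ^ 2 + (Y - Y0 + (Y' - Y0)) ^ 2) * n := by
        rw [e1, hnd]
        ring
      have e3 : (X - X0 + (X' - X0)) ^ 2 + (Y - Y0 + (Y' - Y0)) ^ 2 ≤ 4 * l ^ 2 := by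
        nlinarith [sq_nonneg (X - X0 - (X' - X0)), sq_nonneg (Y - Y0 - (Y' - Y0))]
      have e4 : ((X - X0 + (X' - X0)) ^ 2 + (Y - Y0 + (Y' - Y0)) ^ 2) * n ≤ 4 * l ^ 2 * n :=
        mul_le_mul_of_nonneg_right e3 (by linarith)
      nlinarith [sq_nonneg ((X - X0 + (X' - X0)) * (Y - Y') - (Y - Y0 + (Y' - Y0)) * (X - X'))]
    have hDD : 4 * D ^ 2 ≤ 8 * K ^ 2 + 8 * l ^ 2 * n := by
      have e1 : 2 * D = F - E := by rw [hE]; ring
      have e2 : 4 * D ^ 2 = (F - E) ^ 2 := by rw [← e1]; ring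
      rw [e2]
      nlinarith [sq_nonneg (F + E)]
    have hK2 : 1000000 * K ^ 2 ≤ r ^ 2 := by nlinarith
    have hl2 : 1000000 * l ^ 2 ≤ r ^ 2 := by nlinarith
    have hKn : K ^ 2 ≤ K ^ 2 * n := by nlinarith [sq_nonneg K]
    have hD3 : 1000000 * (4 * D ^ 2) ≤ 16 * (r ^ 2 * n) := by
      have q1 : 1000000 * (K ^ 2 * n) ≤ r ^ 2 * n := by nlinarith
      have q2 : 1000000 * (l ^ 2 * n) ≤ r ^ 2 * n := by nlinarith
      nlinarith
    have hid : r ^ 2 * n = D ^ 2 + (X0 * (Y - Y') - Y0 * (X - X')) ^ 2 := by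
      rw [hr2, hnd, hD]
      ring
    have hpos : 0 ≤ r ^ 2 * n := by positivity
    nlinarith

end Pool.Agent.H79.QN
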