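import Pool.Agent.H79.QN.Stmts

/-! Row CTB of the board `qn` (helper17). -/

set_option autoImplicit false

namespace Pool.Agent.H79.QN

open Finset

namespace CTBaux

/-- sizes of fibres -/
lemma card_le_of_fibres {α β : Type} [DecidableEq β] (S : Finset α) (f : α → β) (A B : ℝ)
    (hA : ((S.image f).card : ℝ) ≤ A) (hB0 : 0 ≤ B)
    (hB : ∀ b ∈ S.image f, (({x ∈ S | f x = b}.card : ℕ) : ℝ) ≤ B) : (S.card : ℝ) ≤ A * B := by
  rw [Finset.card_eq_sum_card_image f S]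
  push_cast
  calc ∑ b ∈ S.image f, (({x ∈ S | f x = b}.card : ℕ) : ℝ) ≤ ∑ b ∈ S.image f, B :=
        Finset.sum_le_sum hB
    _ = ((S.image f).card : ℝ) * B := by rw [Finset.sum_const, nsmul_eq_mul]
    _ ≤ A * B := mul_le_mul_of_nonneg_right hA hB0

/-- sets of integers of small diameter -/
lemma card_diam (T : Finset ℤ) (d : ℝ) (hd : 0 ≤ d)
    (h : ∀ x ∈ T, ∀ y ∈ T, |(x : ℝ) - y| ≤ d) : (T.card : ℝ) ≤ d + 1 := by
  rcases T.eq_empty_or_nonempty with rfl | hT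
  · rw [Finset.card_empty, Nat.cast_zero]
    linarith
  · have h1 : T ⊆ Finset.Icc (T.min' hT) (T.min' hT + ⌊d⌋) := by
      intro x hx
      rw [Finset.mem_Icc]
      refine ⟨T.min'_le x hx, ?_⟩
      have h2 := (abs_le.1 (h x hx _ (T.min'_mem hT))).2
      have h3 : ((x - T.min' hT : ℤ) : ℝ) ≤ d := by
        push_cast
        exact h2
      have h4 := Int.le_floor.2 h3
      linarith
    have h2 := Finset.card_le_card h1
    rw [Int.card_Icc] at h2
    have h3 : (0 : ℤ) ≤ ⌊d⌋ := Int.floor_nonneg.2 hd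
    have h4 : ((T.min' hT + ⌊d⌋ + 1 - T.min' hT).toNat : ℤ) = ⌊d⌋ + 1 := by
      rw [Int.toNat_of_nonneg (by linarith)]
      ring
    have h5 : (T.card : ℤ) ≤ ⌊d⌋ + 1 := by
      rw [← h4]
      exact_mod_cast h2
    have h6 : (T.card : ℝ) ≤ (⌊d⌋ : ℝ) + 1 := by exact_mod_cast h5
    linarith [Int.floor_le d]

/-- two integers of the same sign -/
lemma same_sign (a b : ℤ) (h : 0 ≤ a ↔ 0 ≤ b) :
    |(a : ℝ) - b| * (|(a : ℝ)| + |(b : ℝ)|) = |(a : ℝ) ^ 2 - (b : ℝ) ^ 2| ∧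
      ∀ M : ℝ, |(a : ℝ)| ≤ M → |(b : ℝ)| ≤ M → |(a : ℝ) - b| ≤ M := by
  by_cases ha : 0 ≤ a
  · have hb := h.1 ha
    have ha' : (0 : ℝ) ≤ a := by exact_mod_cast ha
    have hb' : (0 : ℝ) ≤ b := by exact_mod_cast hb
    rw [abs_of_nonneg ha', abs_of_nonneg hb']
    refine ⟨?_, fun M h1 h2 => ?_⟩
    · rw [← abs_of_nonneg (add_nonneg ha' hb'), ← abs_mul]
      congr 1
      ring
    · rw [abs_le]
      constructor <;> linarith
  · have hb : ¬ 0 ≤ b := fun hb => ha (h.2 hb)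
    have ha' : (a : ℝ) < 0 := by exact_mod_cast not_le.1 ha
    have hb' : (b : ℝ) < 0 := by exact_mod_cast not_le.1 hb
    rw [abs_of_neg ha', abs_of_neg hb']
    refine ⟨?_, fun M h1 h2 => ?_⟩
    · have h3 : (0 : ℝ) ≤ -(a : ℝ) + -b := by linarith
      rw [← abs_of_nonneg h3, ← abs_mul]
      rw [← abs_neg]
      congr 1
      ring
    · rw [abs_le]
      constructor <;> linarith

lemma nsq_cast (w : ℤ × ℤ) : ((nsq w : ℤ) : ℝ) = (w.1 : ℝ) ^ 2 + (w.2 : ℝ) ^ 2 := by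
  simp only [nsq]
  push_cast
  ring

/-- fibres over the first coordinate -/
lemma fibre_fst {P ρ K : ℝ} {w : ℤ × ℤ} {S : Finset (ℤ × ℤ)} (hP : 1 ≤ P) (hK : 1 ≤ K)
    (hS : ∀ w' ∈ S, Cl P ρ w' ∧ SS w w' ∧ |(nsq w : ℝ) - nsq w'| ≤ 2 * K ∧
      |(w.1 : ℝ) - w'.1| ≤ K) (a : ℤ) :
    (({x ∈ S | x.1 = a}.card : ℕ) : ℝ) ≤ 3 + 4 * K / P := by
  set T := {x ∈ S | x.1 = a} with hT
  have hinj : Set.InjOn (Prod.snd : ℤ × ℤ → ℤ) (T : Set (ℤ × ℤ)) := by
    intro x hx y hy hxy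
    rw [Finset.mem_coe, hT, Finset.mem_filter] at hx hy
    exact Prod.ext (hx.2.trans hy.2.symm) hxy
  rw [← Finset.card_image_of_injOn hinj]
  have hKP : 0 ≤ 4 * K / P := by positivity
  have h1 : ((T.image Prod.snd).card : ℝ) ≤ (2 + 4 * K / P) + 1 := by
    refine card_diam _ _ (by linarith) ?_
    intro p hp p' hp'
    obtain ⟨x, hx, rfl⟩ := Finset.mem_image.1 hp
    obtain ⟨y, hy, rfl⟩ := Finset.mem_image.1 hp'
    rw [hT, Finset.mem_filter] at hx hy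
    obtain ⟨cx, sx, nx, -⟩ := hS x hx.1
    obtain ⟨cy, sy, ny, -⟩ := hS y hy.1
    have hss : 0 ≤ x.2 ↔ 0 ≤ y.2 := sx.2.symm.trans sy.2
    obtain ⟨e1, e2⟩ := same_sign x.2 y.2 hss
    by_cases hP2 : 2 ≤ P
    · have hd : |(x.2 : ℝ) ^ 2 - (y.2 : ℝ) ^ 2| ≤ 4 * K := by
        have e3 : (x.2 : ℝ) ^ 2 - (y.2 : ℝ) ^ 2 = ((nsq x : ℤ) : ℝ) - nsq y := by
          rw [nsq_cast, nsq_cast, hx.2, hy.2]
          ring
        rw [e3]
        have f1 := abs_le.1 nx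
        have f2 := abs_le.1 ny
        rw [abs_le]
        constructor <;> linarith [f1.1, f1.2, f2.1, f2.2]
      have hs : P ≤ |(x.2 : ℝ)| + |(y.2 : ℝ)| := by linarith [cx.p1, cy.p1]
      have h3 : |(x.2 : ℝ) - y.2| * P ≤ 4 * K := by
        calc |(x.2 : ℝ) - y.2| * P ≤ |(x.2 : ℝ) - y.2| * (|(x.2 : ℝ)| + |(y.2 : ℝ)|) :=
              mul_le_mul_of_nonneg_left hs (abs_nonneg _)
          _ ≤ 4 * K := by rw [e1]; exact hd
      have h4 : |(x.2 : ℝ) - y.2| ≤ 4 * K / P := by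
        rw [le_div_iff₀ (by linarith)]
        exact h3
      linarith
    · rw [not_le] at hP2
      -- `|p| < 3`, so `|p| ≤ 2`
      have hx2 : |(x.2 : ℝ)| ≤ 2 := by
        have h3 : |(x.2 : ℝ)| < 3 := by linarith [cx.p2]
        have h4 : |x.2| < 3 := by exact_mod_cast h3
        have h5 : |x.2| ≤ 2 := by omega
        exact_mod_cast h5
      have hy2 : |(y.2 : ℝ)| ≤ 2 := by
        have h3 : |(y.2 : ℝ)| < 3 := by linarith [cy.p2]
        have h4 : |y.2| < 3 := by exact_mod_cast h3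
        have h5 : |y.2| ≤ 2 := by omega
        exact_mod_cast h5
      have := e2 2 hx2 hy2
      linarith
  linarith

/-- fibres over the second coordinate -/
lemma fibre_snd {P ρ K : ℝ} {w : ℤ × ℤ} {S : Finset (ℤ × ℤ)} (hP : 1 ≤ P) (hρ : 1 ≤ ρ)
    (hK : 1 ≤ K) (hPρ : 4 * P ≤ ρ)
    (hS : ∀ w' ∈ S, Cl P ρ w' ∧ SS w w' ∧ |(nsq w : ℝ) - nsq w'| ≤ 2 * K ∧
      |(w.1 : ℝ) - w'.1| ≤ K) (a : ℤ) :
    (({x ∈ S | x.2 = a}.card : ℕ) : ℝ) ≤ 1 + 4 * K / ρ := by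
  set T := {x ∈ S | x.2 = a} with hT
  have hinj : Set.InjOn (Prod.fst : ℤ × ℤ → ℤ) (T : Set (ℤ × ℤ)) := by
    intro x hx y hy hxy
    rw [Finset.mem_coe, hT, Finset.mem_filter] at hx hy
    exact Prod.ext hxy (hx.2.trans hy.2.symm)
  rw [← Finset.card_image_of_injOn hinj]
  have hKP : 0 ≤ 4 * K / ρ := by positivity
  have h1 : ((T.image Prod.fst).card : ℝ) ≤ (4 * K / ρ) + 1 := by
    refine card_diam _ _ hKP ?_
    intro p hp p' hp'
    obtain ⟨x, hx, rfl⟩ := Finset.mem_image.1 hp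
    obtain ⟨y, hy, rfl⟩ := Finset.mem_image.1 hp'
    rw [hT, Finset.mem_filter] at hx hy
    obtain ⟨cx, sx, nx, -⟩ := hS x hx.1
    obtain ⟨cy, sy, ny, -⟩ := hS y hy.1
    have hss : 0 ≤ x.1 ↔ 0 ≤ y.1 := sx.1.symm.trans sy.1
    obtain ⟨e1, -⟩ := same_sign x.1 y.1 hss
    have hd : |(x.1 : ℝ) ^ 2 - (y.1 : ℝ) ^ 2| ≤ 4 * K := by
      have e3 : (x.1 : ℝ) ^ 2 - (y.1 : ℝ) ^ 2 = ((nsq x : ℤ) : ℝ) - nsq y := by
        rw [nsq_cast, nsq_cast, hx.2, hy.2]
        ring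
      rw [e3]
      have f1 := abs_le.1 nx
      have f2 := abs_le.1 ny
      rw [abs_le]
      constructor <;> linarith [f1.1, f1.2, f2.1, f2.2]
    have hbig : ∀ v : ℤ × ℤ, Cl P ρ v → ρ / 2 ≤ |(v.1 : ℝ)| := by
      intro v cv
      have g1 := cv.p2
      have g2 := cv.r1
      rw [nsq_cast] at g2
      have g3 : 0 ≤ |(v.2 : ℝ)| := abs_nonneg _
      have g4 : (v.2 : ℝ) ^ 2 = |(v.2 : ℝ)| ^ 2 := (sq_abs _).symm
      have g5 : (v.2 : ℝ) ^ 2 + 1 ≤ 4 * P ^ 2 := by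
        rw [g4]
        nlinarith
      have g6 : 4 * P ^ 2 ≤ ρ ^ 2 / 4 := by nlinarith
      have g7 : (ρ / 2) ^ 2 ≤ (v.1 : ℝ) ^ 2 := by nlinarith
      by_contra hlt
      rw [not_le] at hlt
      have g8 : (v.1 : ℝ) ^ 2 = |(v.1 : ℝ)| ^ 2 := (sq_abs _).symm
      nlinarith [abs_nonneg (v.1 : ℝ)]
    have hs : ρ ≤ |(x.1 : ℝ)| + |(y.1 : ℝ)| := by linarith [hbig x cx, hbig y cy]
    have h3 : |(x.1 : ℝ) - y.1| * ρ ≤ 4 * K := by
      calc |(x.1 : ℝ) - y.1| * ρ ≤ |(x.1 : ℝ) - y.1| * (|(x.1 : ℝ)| + |(y.1 : ℝ)|) :=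
            mul_le_mul_of_nonneg_left hs (abs_nonneg _)
        _ ≤ 4 * K := by rw [e1]; exact hd
    rw [le_div_iff₀ (by linarith)]
    exact h3
  linarith

end CTBaux

open CTBaux in
theorem ctb : S_CTB := by
  intro P ρ K w S hP hρ hK hw hS
  have hKP : 0 ≤ 4 * K / P := by positivity
  by_cases h1 : K ≤ P
  · -- case 1
    have hA : ((S.image Prod.fst).card : ℝ) ≤ 3 * K := by
      have := card_diam (S.image Prod.fst) (2 * K) (by linarith) (by
        intro a ha b hb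
        obtain ⟨x, hx, rfl⟩ := Finset.mem_image.1 ha
        obtain ⟨y, hy, rfl⟩ := Finset.mem_image.1 hb
        have f1 := abs_le.1 (hS x hx).2.2.2
        have f2 := abs_le.1 (hS y hy).2.2.2
        rw [abs_le]
        constructor <;> linarith [f1.1, f1.2, f2.1, f2.2])
      linarith
    have hc := card_le_of_fibres S Prod.fst (3 * K) (3 + 4 * K / P) hA (by linarith)
      (fun b _ => fibre_fst hP hK hS b)
    have h2 : 4 * K / P ≤ 4 := by
      rw [div_le_iff₀ (by linarith)]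
      linarith
    nlinarith
  · rw [not_le] at h1
    by_cases h2 : 4 * P ≤ ρ
    · -- case 2
      have hA : ((S.image Prod.snd).card : ℝ) ≤ 2 * P := by
        have := card_diam (S.image Prod.snd) (2 * P - 1) (by linarith) (by
          intro a ha b hb
          obtain ⟨x, hx, rfl⟩ := Finset.mem_image.1 ha
          obtain ⟨y, hy, rfl⟩ := Finset.mem_image.1 hb
          obtain ⟨cx, sx, -⟩ := hS x hx
          obtain ⟨cy, sy, -⟩ := hS y hy
          exact (same_sign x.2 y.2 (sx.2.symm.trans sy.2)).2 _ (by linarith [cx.p2])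
            (by linarith [cy.p2]))
        linarith
      have hρ0 : 0 ≤ 4 * K / ρ := by positivity
      have hc := card_le_of_fibres S Prod.snd (2 * P) (1 + 4 * K / ρ) hA (by linarith)
        (fun b _ => fibre_snd hP hρ hK h2 hS b)
      have h3 : 2 * P * (4 * K / ρ) ≤ 2 * K := by
        rw [← mul_div_assoc, div_le_iff₀ (by linarith)]
        nlinarith
      nlinarith
    · -- case 3
      rw [not_le] at h2
      have hA : ((S.image Prod.fst).card : ℝ) ≤ 12 * P := by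
        have := card_diam (S.image Prod.fst) (2 * ρ) (by linarith) (by
          intro a ha b hb
          obtain ⟨x, hx, rfl⟩ := Finset.mem_image.1 ha
          obtain ⟨y, hy, rfl⟩ := Finset.mem_image.1 hb
          obtain ⟨cx, sx, -⟩ := hS x hx
          obtain ⟨cy, sy, -⟩ := hS y hy
          have hle : ∀ v : ℤ × ℤ, Cl P ρ v → |(v.1 : ℝ)| ≤ 2 * ρ := by
            intro v cv
            have g1 := cv.r2
            rw [nsq_cast] at g1
            have g2 : (v.1 : ℝ) ^ 2 ≤ (2 * ρ) ^ 2 := by nlinarith [sq_nonneg (v.2 : ℝ)]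
            exact abs_le_of_sq_le_sq g2 (by linarith)
          exact (same_sign x.1 y.1 (sx.1.symm.trans sy.1)).2 _ (hle x cx) (hle y cy))
        linarith
      have hc := card_le_of_fibres S Prod.fst (12 * P) (3 + 4 * K / P) hA (by linarith)
        (fun b _ => fibre_fst hP hK hS b)
      have h3 : 12 * P * (4 * K / P) = 48 * K := by
        field_simp
        ring
      nlinarith

end Pool.Agent.H79.QN
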